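import Mathlib

set_option autoImplicit false

/-!
# Random multi-level maps: the counting lemma
-/

open Finset

namespace Pool.Agent.U343.QR

/-- `φ` is bad for `(U, T0)`: every slot of `U` shares its class with a slot of `T0` of the same level. -/
def BadFor {m N : ℕ} (D : Fin m → ℕ) (U T0 : Finset (Fin m × Fin N)) (φ : Fin m × Fin N → Fin N) : Prop :=
  ∀ u ∈ U, ∃ t ∈ T0, t.1 = u.1 ∧ (φ t : ℕ) / D u.1 = (φ u : ℕ) / D u.1

open Classical in
/-- The number of maps which are bad for `(U, T0)`. -/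
lemma card_bad {m N : ℕ} (D : Fin m → ℕ) (hD : ∀ i, 0 < D i) (U T0 : Finset (Fin m × Fin N))
    (hdis : Disjoint U T0) :
    ((univ : Finset (Fin m × Fin N → Fin N)).filter (BadFor D U T0)).card ≤
      N ^ (Fintype.card {x // x ∉ U}) * ∏ u : U, (T0.card * D u.1.1) := by
  -- the injection
  have key : ∀ φ : {φ : Fin m × Fin N → Fin N // BadFor D U T0 φ}, ∀ u : U, ∃ t : T0,
      t.1.1 = u.1.1 ∧ (φ.1 t.1 : ℕ) / D u.1.1 = (φ.1 u.1 : ℕ) / D u.1.1 := by
    intro φ u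
    obtain ⟨t, ht, h⟩ := φ.2 u.1 u.2
    exact ⟨⟨t, ht⟩, h⟩
  choose f hf using key
  let g : {φ : Fin m × Fin N → Fin N // BadFor D U T0 φ} →
      ({x // x ∉ U} → Fin N) × ((u : U) → T0 × Fin (D u.1.1)) :=
    fun φ => (fun x => φ.1 x.1, fun u => (f φ u, ⟨(φ.1 u.1 : ℕ) % D u.1.1, Nat.mod_lt _ (hD _)⟩))
  have hg : Function.Injective g := by
    intro φ ψ h
    have h1 : ∀ x : {x // x ∉ U}, φ.1 x.1 = ψ.1 x.1 := fun x => congrFun (congrArg Prod.fst h) x
    have h2 : ∀ u : U, (f φ u = f ψ u) ∧ (φ.1 u.1 : ℕ) % D u.1.1 = (ψ.1 u.1 : ℕ) % D u.1.1 := by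
      intro u
      have := congrFun (congrArg Prod.snd h) u
      refine ⟨congrArg Prod.fst this, ?_⟩
      exact congrArg (fun z : T0 × Fin (D u.1.1) => (z.2 : ℕ)) this
    apply Subtype.ext
    funext x
    by_cases hx : x ∈ U
    · obtain ⟨h3, h4⟩ := h2 ⟨x, hx⟩
      have e1 := (hf φ ⟨x, hx⟩).2
      have e2 := (hf ψ ⟨x, hx⟩).2
      rw [← h3] at e2
      have hnot : ((f φ ⟨x, hx⟩).1) ∉ U := fun hmem =>
        (Finset.disjoint_left.mp hdis hmem) (f φ ⟨x, hx⟩).2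
      have h5 := h1 ⟨_, hnot⟩
      simp only at h5 h4 e1 e2
      rw [h5] at e1
      apply Fin.ext
      rw [← Nat.div_add_mod (φ.1 x : ℕ) (D x.1), ← Nat.div_add_mod (ψ.1 x : ℕ) (D x.1), h4, ← e1, e2]
    · exact h1 ⟨x, hx⟩
  have hcard := Fintype.card_le_of_injective g hg
  rw [Fintype.card_subtype] at hcard
  refine hcard.trans ?_
  rw [Fintype.card_prod, Fintype.card_fun, Fintype.card_pi]
  simp [Fintype.card_prod]

/-- The bound for one triple. -/
lemma card_bad_real {m N c s : ℕ} (D : Fin m → ℕ) (hD : ∀ i, 0 < D i) (hN : 0 < N)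
    (U T0 : Finset (Fin m × Fin N)) (hdis : Disjoint U T0) (hU : U.card = 4 * s)
    (hT : T0.card ≤ c * s) (hlow : ∀ u ∈ U, s * D u.1 ^ 2 ≤ N) :
    open Classical in
    (((univ : Finset (Fin m × Fin N → Fin N)).filter (BadFor D U T0)).card : ℝ) ≤
      (N : ℝ) ^ (m * N) * (((c : ℝ) ^ 2 * s) ^ (2 * s) / (N : ℝ) ^ (2 * s)) := by
  classical
  have h0 := card_bad D hD U T0 hdis
  have hcompl : Fintype.card {x // x ∉ U} = m * N - 4 * s := by
    rw [Fintype.card_subtype_compl, Fintype.card_prod, Fintype.card_fin, Fintype.card_fin,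
      Fintype.card_coe, hU]
  have hle4 : 4 * s ≤ m * N := by
    rw [← hU]
    have := Finset.card_le_univ U
    simpa using this
  have hprod : (∏ u : U, (T0.card * D u.1.1)) ≤ (c ^ 2 * s * N) ^ (2 * s) := by
    have hsq : (∏ u : U, (T0.card * D u.1.1)) ^ 2 ≤ ((c ^ 2 * s * N) ^ (2 * s)) ^ 2 := by
      rw [← Finset.prod_pow, ← pow_mul]
      calc ∏ u : U, (T0.card * D u.1.1) ^ 2 ≤ ∏ _u : U, (c ^ 2 * s * N) := by
            apply Finset.prod_le_prod'
            intro u _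
            have h1 := hlow u.1 u.2
            calc (T0.card * D u.1.1) ^ 2 = T0.card ^ 2 * D u.1.1 ^ 2 := by ring
              _ ≤ (c * s) ^ 2 * D u.1.1 ^ 2 := by gcongr
              _ = c ^ 2 * s * (s * D u.1.1 ^ 2) := by ring
              _ ≤ c ^ 2 * s * N := by gcongr
        _ = (c ^ 2 * s * N) ^ (2 * s * 2) := by
            rw [Finset.prod_const, Finset.card_univ, Fintype.card_coe, hU]
            congr 1
            ring
    exact (Nat.pow_le_pow_iff_left (by norm_num)).mp hsq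
  have h1 : (((univ : Finset (Fin m × Fin N → Fin N)).filter (BadFor D U T0)).card : ℝ) ≤
      (N : ℝ) ^ (m * N - 4 * s) * ((c : ℝ) ^ 2 * s * N) ^ (2 * s) := by
    have h2 := h0.trans (Nat.mul_le_mul_left _ hprod)
    rw [hcompl] at h2
    exact_mod_cast h2
  refine h1.trans (le_of_eq ?_)
  have hNr : (N : ℝ) ≠ 0 := by positivity
  have e1 : (N : ℝ) ^ (m * N) = (N : ℝ) ^ (m * N - 4 * s) * (N : ℝ) ^ (2 * s) * (N : ℝ) ^ (2 * s) := by
    rw [← pow_add, ← pow_add]
    congr 1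
    omega
  rw [e1, mul_pow ((c : ℝ) ^ 2 * s) (N : ℝ)]
  field_simp

end Pool.Agent.U343.QR
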