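import Pool.Agent.U343.QR.Strong

set_option autoImplicit false

/-!
# The graph, and the deterministic part
-/

open Finset

namespace Pool.Agent.U343.QR

variable {m N : ℕ}

/-- right vertices: pairs (level, index of a block of that level) -/
abbrev BV (D : Fin m → ℕ) (N : ℕ) := {x : Fin m × Fin N // (x.2 : ℕ) * D x.1 < N}

/-- the right vertex in which the slot `p = (level, left vertex)` falls -/
def cls (D : Fin m → ℕ) (φ : Fin m × Fin N → Fin N) (p : Fin m × Fin N) : BV D N :=
  ⟨(p.1, ⟨(φ p : ℕ) / D p.1, lt_of_le_of_lt (Nat.div_le_self _ _) (φ p).2⟩),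
    lt_of_le_of_lt (Nat.div_mul_le_self _ _) (φ p).2⟩

lemma cls_level (D : Fin m → ℕ) (φ : Fin m × Fin N → Fin N) (p : Fin m × Fin N) :
    (cls D φ p).1.1 = p.1 := rfl

/-- the graph -/
def gr (D : Fin m → ℕ) (φ : Fin m × Fin N → Fin N) : SimpleGraph (Fin N ⊕ BV D N) where
  Adj x y := (∃ p : Fin m × Fin N, x = Sum.inl p.2 ∧ y = Sum.inr (cls D φ p)) ∨
    (∃ p : Fin m × Fin N, y = Sum.inl p.2 ∧ x = Sum.inr (cls D φ p))
  symm := ⟨fun x y h => h.symm⟩
  loopless := ⟨by
    intro x h
    rcases h with ⟨p, h1, h2⟩ | ⟨p, h1, h2⟩ <;> simp [h1] at h2⟩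

lemma gr_adj_inl {D : Fin m → ℕ} {φ : Fin m × Fin N → Fin N} {a : Fin N} {y : Fin N ⊕ BV D N}
    (h : (gr D φ).Adj (Sum.inl a) y) : ∃ i : Fin m, y = Sum.inr (cls D φ (i, a)) := by
  rcases h with ⟨p, h1, h2⟩ | ⟨p, h1, h2⟩
  · refine ⟨p.1, ?_⟩
    rw [h2, Sum.inl.inj h1]
  · exact absurd h2 (by simp)

lemma gr_adj_inr {D : Fin m → ℕ} {φ : Fin m × Fin N → Fin N} {b : BV D N} {y : Fin N ⊕ BV D N}
    (h : (gr D φ).Adj (Sum.inr b) y) : ∃ a : Fin N, y = Sum.inl a ∧ cls D φ (b.1.1, a) = b := by
  rcases h with ⟨p, h1, h2⟩ | ⟨p, h1, h2⟩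
  · exact absurd h1 (by simp)
  · refine ⟨p.2, h1, ?_⟩
    have h3 := Sum.inr.inj h2
    rw [h3]
    rfl

/-- many edges -/
lemma card_edges_ge (D : Fin m → ℕ) (φ : Fin m × Fin N → Fin N) :
    m * N ≤ (gr D φ).edgeSet.ncard := by
  classical
  let f : Fin m × Fin N → Sym2 (Fin N ⊕ BV D N) := fun p => s(Sum.inl p.2, Sum.inr (cls D φ p))
  have hf : Function.Injective f := by
    intro p q h
    simp only [f, Sym2.eq_iff] at h
    rcases h with ⟨h1, h2⟩ | ⟨h1, h2⟩
    · have h3 := Sum.inl.inj h1
      have h4 := congrArg (fun b : BV D N => b.1.1) (Sum.inr.inj h2)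
      exact Prod.ext h4 h3
    · exact absurd h1 (by simp)
  have hsub : Set.range f ⊆ (gr D φ).edgeSet := by
    rintro _ ⟨p, rfl⟩
    rw [SimpleGraph.mem_edgeSet]
    exact Or.inl ⟨p, rfl, rfl⟩
  have h1 := Set.ncard_le_ncard hsub (Set.toFinite _)
  rwa [← Set.image_univ, Set.ncard_image_of_injective _ hf, Set.ncard_univ, Nat.card_eq_fintype_card,
    Fintype.card_prod, Fintype.card_fin, Fintype.card_fin] at h1

/-- size of one right level -/
lemma card_level (D : Fin m → ℕ) (hD : ∀ i, 0 < D i) (hDN : ∀ i, D i ≤ N) (i : Fin m) :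
    ((univ : Finset (BV D N)).filter (fun b => b.1.1 = i)).card * D i ≤ 2 * N := by
  classical
  have h1 : ((univ : Finset (BV D N)).filter (fun b => b.1.1 = i)).card ≤ (N - 1) / D i + 1 := by
    rw [← Finset.card_range ((N - 1) / D i + 1)]
    apply Finset.card_le_card_of_injOn (fun b => (b.1.2 : ℕ))
    · intro b hb
      have hb' : b.1.1 = i := by simpa using hb
      have h2 := b.2
      rw [hb'] at h2
      simp only [coe_range, Set.mem_Iio]
      rw [Nat.lt_succ_iff, Nat.le_div_iff_mul_le (hD i)]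
      omega
    · intro b hb b' hb' h
      have hb1 : b.1.1 = i := by simpa using hb
      have hb2 : b'.1.1 = i := by simpa using hb'
      apply Subtype.ext
      apply Prod.ext
      · rw [hb1, hb2]
      · exact Fin.ext h
  calc ((univ : Finset (BV D N)).filter (fun b => b.1.1 = i)).card * D i
      ≤ ((N - 1) / D i + 1) * D i := Nat.mul_le_mul_right _ h1
    _ = (N - 1) / D i * D i + D i := by ring
    _ ≤ (N - 1) + D i := by
        have := Nat.div_mul_le_self (N - 1) (D i)
        omega
    _ ≤ 2 * N := by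
        have := hDN i
        omega

/-- few vertices -/
lemma card_verts_le (D : Fin m → ℕ) (hm : 0 < m) (hD : ∀ i, 2 * m ≤ D i) (hDN : ∀ i, D i ≤ N) :
    Fintype.card (Fin N ⊕ BV D N) ≤ 2 * N := by
  classical
  rw [Fintype.card_sum, Fintype.card_fin]
  have h1 : Fintype.card (BV D N) = ∑ i : Fin m, ((univ : Finset (BV D N)).filter (fun b => b.1.1 = i)).card := by
    rw [← Finset.card_univ]
    exact Finset.card_eq_sum_card_fiberwise (f := fun b : BV D N => b.1.1) (fun _ _ => by simp)
  have h2 : ∀ i : Fin m, m * ((univ : Finset (BV D N)).filter (fun b => b.1.1 = i)).card ≤ N := by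
    intro i
    have h3 := card_level D (fun i => by have := hD i; omega) hDN i
    have h4 : ((univ : Finset (BV D N)).filter (fun b => b.1.1 = i)).card * (2 * m) ≤ 2 * N :=
      le_trans (Nat.mul_le_mul_left _ (hD i)) h3
    nlinarith
  have h5 : m * Fintype.card (BV D N) ≤ m * N := by
    rw [h1, Finset.mul_sum]
    calc ∑ i : Fin m, m * ((univ : Finset (BV D N)).filter (fun b => b.1.1 = i)).card
        ≤ ∑ _i : Fin m, N := Finset.sum_le_sum (fun i _ => h2 i)
      _ = m * N := by simp
  have h6 := Nat.le_of_mul_le_mul_left h5 hm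
  omega

/-- The deterministic part: no subgraph with all degrees in `[3, M]`. -/
theorem no_sub {M L : ℕ} (hM : 0 < M) (hL : L = 8 * M * m) (hm : 0 < m) (D : Fin m → ℕ)
    (hD : ∀ i, 0 < D i) (hDN : ∀ i, D i ≤ N)
    (hDgrow : ∀ i j : Fin m, i < j → L * D i ^ 14 ≤ D j)
    (φ : Fin m × Fin N → Fin N)
    (hφ : ∀ (A : Finset (Fin N)) (U T0 : Finset (Fin m × Fin N)),
      A.Nonempty → U ⊆ univ ×ˢ A → T0 ⊆ univ ×ˢ A → Disjoint U T0 → 7 * A.card ≤ 6 * U.card →
      (∀ u ∈ U, A.card * D u.1 ^ 14 ≤ N) → ¬ BadFor D U T0 φ)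
    (H : (gr D φ).Subgraph) (hne : H.verts.Nonempty)
    (hlo : ∀ v ∈ H.verts, 3 ≤ (H.neighborSet v).ncard)
    (hhi : ∀ v ∈ H.verts, (H.neighborSet v).ncard ≤ M) : False := by
  classical
  set A : Finset (Fin N) := univ.filter (fun a => Sum.inl a ∈ H.verts) with hA
  set E : Finset (Fin m × Fin N) :=
    univ.filter (fun p => H.Adj (Sum.inl p.2) (Sum.inr (cls D φ p))) with hE
  have memA : ∀ a, a ∈ A ↔ Sum.inl a ∈ H.verts := by intro a; simp [hA]
  have memE : ∀ p, p ∈ E ↔ H.Adj (Sum.inl p.2) (Sum.inr (cls D φ p)) := by intro p; simp [hE]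
  -- (1)
  have hEA : ∀ p ∈ E, p.2 ∈ A := by
    intro p hp
    rw [memA]
    exact H.edge_vert ((memE p).mp hp)
  -- (3)
  have hAne : A.Nonempty := by
    obtain ⟨v, hv⟩ := hne
    rcases v with a | b
    · exact ⟨a, (memA a).mpr hv⟩
    · have h3 := hlo _ hv
      have h4 : (H.neighborSet (Sum.inr b)).Nonempty := by
        rw [← Set.ncard_pos (Set.toFinite _)]; omega
      obtain ⟨y, hy⟩ := h4
      have hy' : H.Adj (Sum.inr b) y := hy
      obtain ⟨a, ha, _⟩ := gr_adj_inr (H.adj_sub hy')
      refine ⟨a, (memA a).mpr ?_⟩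
      rw [← ha]
      exact H.edge_vert hy'.symm
  -- (2)
  have hEcard : 3 * A.card ≤ E.card := by
    have h1 : E.card = ∑ a ∈ A, (E.filter (fun p => p.2 = a)).card :=
      Finset.card_eq_sum_card_fiberwise (f := fun p : Fin m × Fin N => p.2) (fun p hp => hEA p hp)
    rw [h1, mul_comm, ← smul_eq_mul, ← Finset.sum_const]
    apply Finset.sum_le_sum
    intro a ha
    have h2 := hlo _ ((memA a).mp ha)
    refine h2.trans ?_
    have h3 : H.neighborSet (Sum.inl a) ⊆
        ((fun p : Fin m × Fin N => (Sum.inr (cls D φ p) : Fin N ⊕ BV D N)) '' (E.filter (fun p => p.2 = a) : Finset _)) := by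
      intro y hy
      have hy' : H.Adj (Sum.inl a) y := hy
      obtain ⟨i, hi⟩ := gr_adj_inl (H.adj_sub hy')
      refine ⟨(i, a), ?_, hi.symm⟩
      simp only [coe_filter, Set.mem_ofPred_eq, and_true]
      rw [memE]
      rw [hi] at hy'
      exact hy'
    refine (Set.ncard_le_ncard h3 (Set.toFinite _)).trans ?_
    refine (Set.ncard_image_le (Set.toFinite _)).trans ?_
    rw [Set.ncard_coe_finset]
  -- fibres of right vertices
  have hfib : ∀ b : BV D N, (E.filter (fun p => cls D φ p = b)).card =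
      (H.neighborSet (Sum.inr b)).ncard := by
    intro b
    have h1 : ((E.filter (fun p => cls D φ p = b)).image
        (fun p => (Sum.inl p.2 : Fin N ⊕ BV D N)) : Set (Fin N ⊕ BV D N)) =
        H.neighborSet (Sum.inr b) := by
      ext y
      simp only [coe_image, coe_filter, Set.mem_image, Set.mem_ofPred_eq]
      constructor
      · rintro ⟨p, ⟨hp, hpb⟩, rfl⟩
        rw [memE, hpb] at hp
        exact hp.symm
      · intro hy
        have hy' : H.Adj (Sum.inr b) y := hy
        obtain ⟨a, ha, hb⟩ := gr_adj_inr (H.adj_sub hy')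
        refine ⟨(b.1.1, a), ⟨?_, hb⟩, ha.symm⟩
        rw [memE, hb]
        rw [ha] at hy'
        exact hy'.symm
    rw [← h1, Set.ncard_coe_finset, Finset.card_image_of_injOn]
    intro p hp q hq hpq
    have hp' : cls D φ p = b := (mem_filter.mp (mem_coe.mp hp)).2
    have hq' : cls D φ q = b := (mem_filter.mp (mem_coe.mp hq)).2
    have h2 : p.1 = q.1 := by
      have := congrArg (fun b : BV D N => b.1.1) (hp'.trans hq'.symm)
      exact this
    exact Prod.ext h2 (Sum.inl.inj hpq)
  have hfibE : ∀ p ∈ E, Sum.inr (cls D φ p) ∈ H.verts := by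
    intro p hp
    exact H.edge_vert ((memE p).mp hp).symm
  have hfib3 : ∀ p ∈ E, 3 ≤ (E.filter (fun q => cls D φ q = cls D φ p)).card := by
    intro p hp
    rw [hfib]
    exact hlo _ (hfibE p hp)
  have hfibM : ∀ b : BV D N, (E.filter (fun q => cls D φ q = b)).card ≤ M := by
    intro b
    rcases (E.filter (fun q => cls D φ q = b)).eq_empty_or_nonempty with h | ⟨p, hp⟩
    · rw [h]; simp
    · rw [mem_filter] at hp
      rw [hfib, ← hp.2]
      exact hhi _ (hfibE p hp.1)
  -- level sizes
  have hlev : ∀ i : Fin m, (E.filter (fun p => p.1 = i)).card * D i ≤ M * (2 * N) := by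
    intro i
    have h1 : (E.filter (fun p => p.1 = i)).card ≤
        ((univ : Finset (BV D N)).filter (fun b => b.1.1 = i)).card * M := by
      rw [Finset.card_eq_sum_card_fiberwise (f := fun p => cls D φ p)
        (t := (univ : Finset (BV D N)).filter (fun b => b.1.1 = i))]
      · rw [← smul_eq_mul, ← Finset.sum_const]
        apply Finset.sum_le_sum
        intro b _
        refine (Finset.card_le_card ?_).trans (hfibM b)
        intro p hp
        rw [mem_filter, mem_filter] at hp
        rw [mem_filter]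
        exact ⟨hp.1.1, hp.2⟩
      · intro p hp
        have hp' := (mem_filter.mp (mem_coe.mp hp)).2
        simp only [coe_filter, mem_univ, true_and, Set.mem_ofPred_eq]
        exact hp'
    have h2 := card_level D hD hDN i
    calc (E.filter (fun p => p.1 = i)).card * D i
        ≤ ((univ : Finset (BV D N)).filter (fun b => b.1.1 = i)).card * M * D i :=
          Nat.mul_le_mul_right _ h1
      _ = M * (((univ : Finset (BV D N)).filter (fun b => b.1.1 = i)).card * D i) := by ring
      _ ≤ M * (2 * N) := Nat.mul_le_mul_left _ h2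
  set s := A.card with hs
  have hspos : 0 < s := hAne.card_pos
  set Elow := E.filter (fun p => s * D p.1 ^ 14 ≤ N) with hElow
  set Emid := E.filter (fun p => N < s * D p.1 ^ 14 ∧ s * D p.1 < L * N) with hEmid
  set Ehigh := E.filter (fun p => L * N ≤ s * D p.1) with hEhigh
  have hsplit : E.card ≤ Elow.card + Emid.card + Ehigh.card := by
    have h1 : E ⊆ (Elow ∪ Emid) ∪ Ehigh := by
      intro p hp
      by_cases h1 : s * D p.1 ^ 14 ≤ N
      · exact mem_union_left _ (mem_union_left _ (mem_filter.mpr ⟨hp, h1⟩))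
      · by_cases h2 : L * N ≤ s * D p.1
        · exact mem_union_right _ (mem_filter.mpr ⟨hp, h2⟩)
        · push Not at h1 h2
          exact mem_union_left _ (mem_union_right _ (mem_filter.mpr ⟨hp, h1, h2⟩))
    refine (Finset.card_le_card h1).trans ((Finset.card_union_le _ _).trans ?_)
    have := Finset.card_union_le Elow Emid
    omega
  -- the middle level
  have hmidlev : ∀ p ∈ Emid, ∀ q ∈ Emid, ¬ (p.1 < q.1) := by
    intro p hp q hq hlt
    rw [hEmid, mem_filter] at hp hq
    have h1 := hDgrow _ _ hlt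
    have h2 : L * N ≤ L * (s * D p.1 ^ 14) := Nat.mul_le_mul_left _ hp.2.1.le
    have h3 : L * (s * D p.1 ^ 14) ≤ s * D q.1 := by
      calc L * (s * D p.1 ^ 14) = s * (L * D p.1 ^ 14) := by ring
        _ ≤ s * D q.1 := Nat.mul_le_mul_left _ h1
    have h4 := hq.2.2
    omega
  have hmid : Emid.card ≤ s := by
    rw [hs]
    apply Finset.card_le_card_of_injOn (fun p => p.2)
    · intro p hp
      exact mem_coe.mpr (hEA p (mem_filter.mp (mem_coe.mp hp)).1)
    · intro p hp q hq hpq
      have h1 := hmidlev p (mem_coe.mp hp) q (mem_coe.mp hq)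
      have h2 := hmidlev q (mem_coe.mp hq) p (mem_coe.mp hp)
      have h3 : p.1 = q.1 := le_antisymm (not_lt.mp h2) (not_lt.mp h1)
      exact Prod.ext h3 hpq
  -- the high levels
  have hhigh : 4 * Ehigh.card ≤ s := by
    have h1 : Ehigh.card = ∑ i : Fin m, (Ehigh.filter (fun p => p.1 = i)).card :=
      Finset.card_eq_sum_card_fiberwise (f := fun p : Fin m × Fin N => p.1) (fun _ _ => by simp)
    have h2 : ∀ i : Fin m, 4 * m * (Ehigh.filter (fun p => p.1 = i)).card ≤ s := by
      intro i
      rcases (Ehigh.filter (fun p => p.1 = i)).eq_empty_or_nonempty with h | ⟨p, hp⟩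
      · rw [h]; simp
      · rw [mem_filter, hEhigh, mem_filter] at hp
        have h3 : L * N ≤ s * D i := by rw [← hp.2]; exact hp.1.2
        have h4 : (Ehigh.filter (fun p => p.1 = i)).card ≤ (E.filter (fun p => p.1 = i)).card := by
          apply Finset.card_le_card
          intro q hq
          rw [mem_filter, hEhigh, mem_filter] at hq
          rw [mem_filter]
          exact ⟨hq.1.1, hq.2⟩
        have h5 := hlev i
        set e := (E.filter (fun p => p.1 = i)).card with he
        have h6 : e * L * D i ≤ 2 * M * s * D i := by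
          calc e * L * D i = L * (e * D i) := by ring
            _ ≤ L * (M * (2 * N)) := Nat.mul_le_mul_left _ h5
            _ = 2 * M * (L * N) := by ring
            _ ≤ 2 * M * (s * D i) := Nat.mul_le_mul_left _ h3
            _ = 2 * M * s * D i := by ring
        have h7 : e * L ≤ 2 * M * s := Nat.le_of_mul_le_mul_right h6 (hD i)
        have h8 : (2 * M) * (4 * m * e) ≤ (2 * M) * s := by
          calc (2 * M) * (4 * m * e) = e * (8 * M * m) := by ring
            _ = e * L := by rw [hL]
            _ ≤ 2 * M * s := h7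
        have h9 : 4 * m * e ≤ s := Nat.le_of_mul_le_mul_left h8 (by omega)
        exact le_trans (Nat.mul_le_mul_left _ h4) h9
    have h3 : m * (4 * Ehigh.card) ≤ m * s := by
      calc m * (4 * Ehigh.card) = ∑ i : Fin m, 4 * m * (Ehigh.filter (fun p => p.1 = i)).card := by
            rw [h1, ← Finset.mul_sum]; ring
        _ ≤ ∑ _i : Fin m, s := Finset.sum_le_sum (fun i _ => h2 i)
        _ = m * s := by simp
    exact Nat.le_of_mul_le_mul_left h3 hm
  -- representatives
  set K := Elow.image (fun p => cls D φ p) with hK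
  have hrep : ∀ b : BV D N, ∃ p : Fin m × Fin N, b ∈ K → p ∈ Elow ∧ cls D φ p = b := by
    intro b
    by_cases hb : b ∈ K
    · obtain ⟨p, hp, hpb⟩ := mem_image.mp hb
      exact ⟨p, fun _ => ⟨hp, hpb⟩⟩
    · obtain ⟨a, ha⟩ := hAne
      exact ⟨(⟨0, hm⟩, a), fun h => absurd h hb⟩
  choose rep hrep using hrep
  set T0 := K.image rep with hT0
  have hT0sub : T0 ⊆ Elow := by
    intro t ht
    obtain ⟨b, hb, rfl⟩ := mem_image.mp ht
    exact (hrep b hb).1
  have hT0card : T0.card ≤ K.card := Finset.card_image_le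
  have hKcard : 3 * K.card ≤ Elow.card := by
    rw [Finset.card_eq_sum_card_fiberwise (s := Elow) (f := fun p => cls D φ p) (t := K)
      (fun p hp => mem_coe.mpr (mem_image_of_mem _ (mem_coe.mp hp)))]
    rw [mul_comm, ← smul_eq_mul, ← Finset.sum_const]
    apply Finset.sum_le_sum
    intro b hb
    obtain ⟨p, hp, hpb⟩ := mem_image.mp hb
    rw [hElow, mem_filter] at hp
    refine (hfib3 p hp.1).trans (Finset.card_le_card ?_)
    intro q hq
    rw [mem_filter] at hq
    rw [mem_filter, hElow, mem_filter]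
    have hqp : q.1 = p.1 := by
      have := congrArg (fun b : BV D N => b.1.1) hq.2
      exact this
    refine ⟨⟨hq.1, ?_⟩, hq.2.trans hpb⟩
    rw [hqp]
    exact hp.2
  set U := Elow \ T0 with hU
  have hUcard : U.card = Elow.card - T0.card := Finset.card_sdiff_of_subset hT0sub
  have hElowA : Elow ⊆ univ ×ˢ A := by
    intro p hp
    rw [mem_product]
    exact ⟨mem_univ _, hEA p (mem_filter.mp hp).1⟩
  refine hφ A U T0 hAne ((Finset.sdiff_subset).trans hElowA) (hT0sub.trans hElowA)
    Finset.sdiff_disjoint ?_ ?_ ?_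
  · omega
  · intro u hu
    have := (mem_sdiff.mp hu).1
    rw [hElow, mem_filter] at this
    exact this.2
  · intro u hu
    have hu' := (mem_sdiff.mp hu).1
    have huK : cls D φ u ∈ K := mem_image_of_mem _ hu'
    refine ⟨rep (cls D φ u), mem_image_of_mem _ huK, ?_⟩
    have h1 := (hrep _ huK).2
    have h2 : (rep (cls D φ u)).1 = u.1 := by
      have := congrArg (fun b : BV D N => b.1.1) h1
      exact this
    have h3 : (φ (rep (cls D φ u)) : ℕ) / D (rep (cls D φ u)).1 = (φ u : ℕ) / D u.1 := by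
      have := congrArg (fun b : BV D N => (b.1.2 : ℕ)) h1
      exact this
    rw [h2] at h3
    exact ⟨h2, h3⟩

end Pool.Agent.U343.QR
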