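import Pool.Agent.U343.QR.Graph

set_option autoImplicit false

/-!
# Graphs with many edges and no subgraph with all degrees in `[3, M]`
-/

open Finset

namespace Pool.Agent.U343.QR

/-- block sizes of the levels -/
def dseq (L Q : ℕ) : ℕ → ℕ
  | 0 => Q
  | i + 1 => L * dseq L Q i ^ 14

lemma dseq_pos {L Q : ℕ} (hL : 0 < L) (hQ : 0 < Q) (i : ℕ) : 0 < dseq L Q i := by
  induction i with
  | zero => exact hQ
  | succ i ih => exact Nat.mul_pos hL (pow_pos ih _)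

lemma dseq_le_succ {L Q : ℕ} (hL : 0 < L) (hQ : 0 < Q) (i : ℕ) : dseq L Q i ≤ dseq L Q (i + 1) := by
  have h := dseq_pos hL hQ i
  calc dseq L Q i ≤ dseq L Q i ^ 14 := Nat.le_self_pow (by norm_num) _
    _ ≤ L * dseq L Q i ^ 14 := Nat.le_mul_of_pos_left _ hL

lemma dseq_mono {L Q : ℕ} (hL : 0 < L) (hQ : 0 < Q) : Monotone (dseq L Q) :=
  monotone_nat_of_le_succ (dseq_le_succ hL hQ)

/-- For all `M` and `F` there is a finite graph with at least `F |V|` edges in which no subgraph has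
all its degrees in `[3, M]`. -/
theorem main (M F : ℕ) : ∃ (V : Type) (_ : Fintype V) (_ : Nonempty V) (G : SimpleGraph V),
    F * Fintype.card V ≤ G.edgeSet.ncard ∧
    ∀ H : G.Subgraph, H.verts.Nonempty → (∀ v ∈ H.verts, 3 ≤ (H.neighborSet v).ncard) →
      (∀ v ∈ H.verts, (H.neighborSet v).ncard ≤ M) → False := by
  classical
  obtain ⟨m, hm⟩ : ∃ m : ℕ, m = 2 * F + 1 := ⟨_, rfl⟩
  obtain ⟨L, hL⟩ : ∃ L : ℕ, L = 8 * (M + 1) * m := ⟨_, rfl⟩
  obtain ⟨Q, hQ⟩ : ∃ Q : ℕ, Q = 12 * 4 ^ m * m ^ m := ⟨_, rfl⟩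
  have hm0 : 0 < m := by omega
  have hL0 : 0 < L := by rw [hL]; positivity
  have hQ0 : 0 < Q := by rw [hQ]; positivity
  have hQm : 2 * m ≤ Q := by
    have h1 : m < 4 ^ m := Nat.lt_pow_self (by norm_num)
    have h2 : 1 ≤ m ^ m := Nat.one_le_pow _ _ hm0
    calc 2 * m ≤ 12 * 4 ^ m := by omega
      _ = 12 * 4 ^ m * 1 := by ring
      _ ≤ 12 * 4 ^ m * m ^ m := Nat.mul_le_mul_left _ h2
      _ = Q := hQ.symm
  set N := dseq L Q m with hN
  have hN0 : 0 < N := dseq_pos hL0 hQ0 m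
  let D : Fin m → ℕ := fun i => dseq L Q i
  have hDQ : ∀ i, Q ≤ D i := fun i => dseq_mono hL0 hQ0 (Nat.zero_le i.val)
  have hD0 : ∀ i, 0 < D i := fun i => dseq_pos hL0 hQ0 i
  have hDN : ∀ i, D i ≤ N := fun i => dseq_mono hL0 hQ0 i.isLt.le
  have hgrow : ∀ i j : Fin m, i < j → L * D i ^ 14 ≤ D j := by
    intro i j hij
    have : (i : ℕ) + 1 ≤ j := hij
    exact dseq_mono hL0 hQ0 this
  obtain ⟨φ, hφ⟩ := exists_good' D hDQ hm0 hN0 (le_of_eq hQ.symm)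
  refine ⟨Fin N ⊕ BV D N, inferInstance, ⟨Sum.inl ⟨0, hN0⟩⟩, gr D φ, ?_, ?_⟩
  · have h1 := card_edges_ge D φ
    have h2 := card_verts_le D hm0 (fun i => hQm.trans (hDQ i)) hDN
    calc F * Fintype.card (Fin N ⊕ BV D N) ≤ F * (2 * N) := Nat.mul_le_mul_left _ h2
      _ ≤ m * N := by rw [hm]; nlinarith
      _ ≤ _ := h1
  · intro H hne hlo hhi
    exact no_sub (M := M + 1) (Nat.succ_pos M) hL hm0 D hD0 hDN hgrow φ hφ H hne hlo
      (fun v hv => (hhi v hv).trans (Nat.le_succ M))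

end Pool.Agent.U343.QR
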