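import Pool.Agent.U343.QR.Count

set_option autoImplicit false

/-!
# Random multi-level maps: the union bound (levels growing like `D ↦ L * D ^ 14`)
-/

open Finset

namespace Pool.Agent.U343.QR

lemma pow_self_le' (s : ℕ) : (s : ℝ) ^ s ≤ 3 ^ s * (s.factorial : ℝ) := by
  have h1 := Real.pow_div_factorial_le_exp (s : ℝ) (by positivity) s
  have h2 : Real.exp (s : ℝ) ≤ 3 ^ s := by
    have h3 : Real.exp (s : ℝ) = Real.exp 1 ^ s := by
      rw [← Real.exp_nat_mul]; simp
    rw [h3]
    apply pow_le_pow_left₀ (Real.exp_pos _).le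
    exact (Real.exp_one_lt_d9.le.trans (by norm_num))
  have h4 : (0 : ℝ) < (s.factorial : ℝ) := by positivity
  rw [div_le_iff₀ h4] at h1
  exact h1.trans (mul_le_mul_of_nonneg_right h2 h4.le)

/-- the 84-th root of `N / s` -/
noncomputable def rho (N s : ℕ) : ℝ := ((N : ℝ) / s) ^ ((84 : ℕ) : ℝ)⁻¹

lemma rho_pow (N s : ℕ) : rho N s ^ 84 = (N : ℝ) / s := by
  unfold rho
  exact Real.rpow_inv_natCast_pow (by positivity) (by norm_num)

lemma rho_nonneg (N s : ℕ) : 0 ≤ rho N s := by
  unfold rho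
  positivity

/-- one term of the union bound -/
lemma term_le' {m N s : ℕ} (hs : 0 < s) (h1 : 1 ≤ rho N s)
    (hQ : (12 * 4 ^ m * m ^ m : ℝ) ≤ rho N s ^ 6) :
    (N.choose s : ℝ) * (4 ^ (m * s) * ((m : ℝ) ^ (m * s) / rho N s ^ (91 * s))) ≤ (1 / 4) ^ s := by
  have hsr : (0 : ℝ) < s := by exact_mod_cast hs
  have h1' : (N.choose s : ℝ) ≤ (N : ℝ) ^ s / (s.factorial : ℝ) := Nat.choose_le_pow_div s N
  have hf : (0 : ℝ) < (s.factorial : ℝ) := by positivity
  have h2 : (1 : ℝ) / (s.factorial : ℝ) ≤ 3 ^ s / (s : ℝ) ^ s := by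
    rw [div_le_div_iff₀ hf (by positivity)]
    have := pow_self_le' s
    linarith
  have hrho := rho_pow N s
  set r := rho N s with hr
  have hr0 : 0 < r := by linarith
  have h3 : (N.choose s : ℝ) ≤ (3 * r ^ 84) ^ s := by
    refine h1'.trans ?_
    rw [hrho, div_eq_mul_one_div]
    calc (N : ℝ) ^ s * (1 / (s.factorial : ℝ)) ≤ (N : ℝ) ^ s * (3 ^ s / (s : ℝ) ^ s) :=
          mul_le_mul_of_nonneg_left h2 (by positivity)
      _ = (3 * ((N : ℝ) / s)) ^ s := by
          rw [mul_pow, div_pow]; ring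
  calc (N.choose s : ℝ) * (4 ^ (m * s) * ((m : ℝ) ^ (m * s) / r ^ (91 * s)))
      ≤ (3 * r ^ 84) ^ s * (4 ^ (m * s) * ((m : ℝ) ^ (m * s) / r ^ (91 * s))) := by
        apply mul_le_mul_of_nonneg_right h3; positivity
    _ = (3 * 4 ^ m * m ^ m / r ^ 7) ^ s := by
        rw [pow_mul (4 : ℝ) m s, pow_mul (m : ℝ) m s, pow_mul r 91 s, ← div_pow, ← mul_pow,
          ← mul_pow]
        congr 1
        field_simp
    _ ≤ (1 / 4) ^ s := by
        apply pow_le_pow_left₀ (by positivity)
        rw [div_le_div_iff₀ (by positivity) (by norm_num)]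
        have h7 : r ^ 6 ≤ r ^ 7 := pow_le_pow_right₀ h1 (by norm_num)
        linarith

lemma geom_lt' (n : ℕ) : ∑ s ∈ range n, (1 / 4 : ℝ) ^ (s + 1) < 1 := by
  have h : ∀ n : ℕ, ∑ s ∈ range n, (1 / 4 : ℝ) ^ (s + 1) = (1 - (1 / 4) ^ n) / 3 := by
    intro n
    induction n with
    | zero => simp
    | succ n ih => rw [Finset.sum_range_succ, ih, pow_succ]; ring
  rw [h]
  have : (0 : ℝ) < (1 / 4) ^ n := by positivity
  linarith

/-- The bound for one triple. -/
lemma card_bad_real' {m N s : ℕ} (D : Fin m → ℕ) (hD : ∀ i, 0 < D i) (hm : 0 < m) (hN : 0 < N)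
    (hs : 0 < s) (h1 : 1 ≤ rho N s)
    (U T0 : Finset (Fin m × Fin N)) (hdis : Disjoint U T0) (hU : 7 * s ≤ 6 * U.card)
    (hU' : U.card ≤ m * s)
    (hT : T0.card ≤ m * s) (hlow : ∀ u ∈ U, s * D u.1 ^ 14 ≤ N) :
    open Classical in
    (((univ : Finset (Fin m × Fin N → Fin N)).filter (BadFor D U T0)).card : ℝ) ≤
      (N : ℝ) ^ (m * N) * ((m : ℝ) ^ (m * s) / rho N s ^ (91 * s)) := by
  classical
  have h0 := card_bad D hD U T0 hdis
  have hrho := rho_pow N s
  set r := rho N s with hr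
  have hr0 : 0 < r := by linarith
  have hsr : (0 : ℝ) < s := by exact_mod_cast hs
  have hNr : (0 : ℝ) < N := by exact_mod_cast hN
  have hmr : (1 : ℝ) ≤ m := by exact_mod_cast hm
  have hcompl : Fintype.card {x // x ∉ U} = m * N - U.card := by
    rw [Fintype.card_subtype_compl, Fintype.card_prod, Fintype.card_fin, Fintype.card_fin,
      Fintype.card_coe]
  have hle4 : U.card ≤ m * N := by
    have := Finset.card_le_univ U
    simpa using this
  have hNs : (N : ℝ) = s * r ^ 84 := by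
    rw [hrho]; field_simp
  have hprod : ((∏ u : U, (T0.card * D u.1.1) : ℕ) : ℝ) ≤ (m * s * r ^ 6) ^ U.card := by
    push_cast
    have : (m * s * r ^ 6) ^ U.card = ∏ _u : U, (m * s * r ^ 6 : ℝ) := by
      rw [Finset.prod_const, Finset.card_univ, Fintype.card_coe]
    rw [this]
    apply Finset.prod_le_prod
    · intro u _; exact mul_nonneg (Nat.cast_nonneg _) (Nat.cast_nonneg _)
    · intro u _
      have h2 := hlow u.1 u.2
      have h3 : (D u.1.1 : ℝ) ≤ r ^ 6 := by
        have h4 : (s : ℝ) * (D u.1.1 : ℝ) ^ 14 ≤ s * r ^ 84 := by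
          rw [← hNs]; exact_mod_cast h2
        have h5 : (D u.1.1 : ℝ) ^ 14 ≤ (r ^ 6) ^ 14 := by
          rw [← pow_mul]
          exact le_of_mul_le_mul_left h4 hsr
        exact (pow_le_pow_iff_left₀ (by positivity) (by positivity) (by norm_num)).mp h5
      have h6 : (T0.card : ℝ) ≤ m * s := by exact_mod_cast hT
      exact mul_le_mul h6 h3 (by positivity) (by positivity)
  have h2 : (((univ : Finset (Fin m × Fin N → Fin N)).filter (BadFor D U T0)).card : ℝ) ≤
      (N : ℝ) ^ (m * N - U.card) * (m * s * r ^ 6) ^ U.card := by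
    rw [hcompl] at h0
    have h3 : (((univ : Finset (Fin m × Fin N → Fin N)).filter (BadFor D U T0)).card : ℝ) ≤
        (N : ℝ) ^ (m * N - U.card) * ((∏ u : U, (T0.card * D u.1.1) : ℕ) : ℝ) := by
      exact_mod_cast h0
    exact h3.trans (mul_le_mul_of_nonneg_left hprod (by positivity))
  refine h2.trans ?_
  have e1 : (N : ℝ) ^ (m * N) = (N : ℝ) ^ (m * N - U.card) * (N : ℝ) ^ U.card := by
    rw [← pow_add]
    congr 1
    omega
  rw [e1, mul_assoc ((N : ℝ) ^ (m * N - U.card))]
  apply mul_le_mul_of_nonneg_left _ (by positivity)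
  have h5 : (m * s * r ^ 6 : ℝ) ^ U.card = (N : ℝ) ^ U.card * ((m : ℝ) ^ U.card / r ^ (78 * U.card)) := by
    rw [pow_mul r 78, ← div_pow, ← mul_pow]
    congr 1
    rw [hNs]
    field_simp
  rw [h5]
  apply mul_le_mul_of_nonneg_left _ (by positivity)
  apply div_le_div₀ (by positivity) _ (by positivity) _
  · exact pow_le_pow_right₀ hmr hU'
  · exact pow_le_pow_right₀ h1 (by omega)

/-- **Existence of the maps.** -/
theorem exists_good' {m N Q : ℕ} (D : Fin m → ℕ) (hD : ∀ i, Q ≤ D i) (hm : 0 < m) (hN : 0 < N)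
    (hQ : 12 * 4 ^ m * m ^ m ≤ Q) :
    ∃ φ : Fin m × Fin N → Fin N, ∀ (A : Finset (Fin N)) (U T0 : Finset (Fin m × Fin N)),
      A.Nonempty → U ⊆ univ ×ˢ A → T0 ⊆ univ ×ˢ A → Disjoint U T0 → 7 * A.card ≤ 6 * U.card →
      (∀ u ∈ U, A.card * D u.1 ^ 14 ≤ N) → ¬ BadFor D U T0 φ := by
  classical
  by_contra hcon
  push Not at hcon
  have hQ0 : 0 < Q := lt_of_lt_of_le (by positivity) hQ
  have hDpos : ∀ i, 0 < D i := fun i => lt_of_lt_of_le hQ0 (hD i)
  have hcover : (univ : Finset (Fin m × Fin N → Fin N)) ⊆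
      (univ : Finset (Finset (Fin N))).biUnion (fun A =>
      (((univ ×ˢ A).powerset ×ˢ (univ ×ˢ A).powerset).filter (fun q =>
        A.Nonempty ∧ Disjoint q.1 q.2 ∧ 7 * A.card ≤ 6 * q.1.card ∧
          (∀ u ∈ q.1, A.card * D u.1 ^ 14 ≤ N))).biUnion (fun q =>
            univ.filter (BadFor D q.1 q.2))) := by
    intro φ _
    obtain ⟨A, U, T0, hA, hU, hT0, hdis, hUc, hlow, hbad⟩ := hcon φ
    simp only [mem_biUnion, mem_univ, true_and, mem_filter, mem_product, mem_powerset]
    exact ⟨A, (U, T0), ⟨⟨hU, hT0⟩, hA, hdis, hUc, hlow⟩, hbad⟩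
  have hcard := (Finset.card_le_card hcover).trans card_biUnion_le
  have htot : ((univ : Finset (Fin m × Fin N → Fin N)).card : ℝ) = (N : ℝ) ^ (m * N) := by
    rw [Finset.card_univ, Fintype.card_fun, Fintype.card_prod]
    simp
  let w : ℕ → ℝ := fun s => if 0 < s ∧ (Q : ℝ) ≤ rho N s ^ 6 then
    4 ^ (m * s) * ((m : ℝ) ^ (m * s) / rho N s ^ (91 * s)) else 0
  have hone_of : ∀ s : ℕ, (Q : ℝ) ≤ rho N s ^ 6 → 1 ≤ rho N s := by
    intro s hs
    have h1 : (1 : ℝ) ≤ rho N s ^ 6 := le_trans (by exact_mod_cast hQ0) hs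
    by_contra hlt
    push Not at hlt
    have := pow_lt_one₀ (rho_nonneg N s) hlt (n := 6) (by norm_num)
    linarith
  have hone : ∀ A : Finset (Fin N),
      (((((univ ×ˢ A).powerset ×ˢ (univ ×ˢ A).powerset).filter (fun q =>
        A.Nonempty ∧ Disjoint q.1 q.2 ∧ 7 * A.card ≤ 6 * q.1.card ∧
          (∀ u ∈ q.1, A.card * D u.1 ^ 14 ≤ N))).biUnion (fun q =>
            (univ : Finset (Fin m × Fin N → Fin N)).filter (BadFor D q.1 q.2))).card : ℝ) ≤
        (N : ℝ) ^ (m * N) * w A.card := by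
    intro A
    set J := ((univ ×ˢ A).powerset ×ˢ (univ ×ˢ A).powerset).filter
      (fun q : Finset (Fin m × Fin N) × Finset (Fin m × Fin N) =>
        A.Nonempty ∧ Disjoint q.1 q.2 ∧ 7 * A.card ≤ 6 * q.1.card ∧
          (∀ u ∈ q.1, A.card * D u.1 ^ 14 ≤ N)) with hJ
    have hprodcard : ((univ : Finset (Fin m)) ×ˢ A).card = m * A.card := by
      rw [Finset.card_product]; simp
    have hsub : (J.card : ℝ) ≤ 4 ^ (m * A.card) := by
      have h1 : J.card ≤ 2 ^ (m * A.card) * 2 ^ (m * A.card) := by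
        refine (Finset.card_filter_le _ _).trans ?_
        rw [Finset.card_product, Finset.card_powerset, hprodcard]
      have h2 : (2 ^ (m * A.card) * 2 ^ (m * A.card) : ℕ) = 4 ^ (m * A.card) := by
        rw [← mul_pow]
        norm_num
      rw [h2] at h1
      exact_mod_cast h1
    by_cases hval : 0 < A.card ∧ (Q : ℝ) ≤ rho N A.card ^ 6
    · have hw : w A.card = 4 ^ (m * A.card) * ((m : ℝ) ^ (m * A.card) / rho N A.card ^ (91 * A.card)) := by
        simp only [w, if_pos hval]
      have hr1 := hone_of _ hval.2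
      have hr0 : 0 < rho N A.card := by linarith
      calc ((J.biUnion (fun q =>
            (univ : Finset (Fin m × Fin N → Fin N)).filter (BadFor D q.1 q.2))).card : ℝ)
          ≤ ((∑ q ∈ J, ((univ : Finset (Fin m × Fin N → Fin N)).filter
              (BadFor D q.1 q.2)).card : ℕ) : ℝ) := by
            exact_mod_cast card_biUnion_le
        _ = ∑ q ∈ J, (((univ : Finset (Fin m × Fin N → Fin N)).filter
              (BadFor D q.1 q.2)).card : ℝ) := by push_cast; rfl
        _ ≤ ∑ _q ∈ J, (N : ℝ) ^ (m * N) * ((m : ℝ) ^ (m * A.card) / rho N A.card ^ (91 * A.card)) := by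
            apply Finset.sum_le_sum
            intro q hq
            rw [hJ, mem_filter, mem_product, mem_powerset, mem_powerset] at hq
            obtain ⟨⟨hU, hT⟩, _, hdis, hUc, hlow⟩ := hq
            have hUc' := Finset.card_le_card hU
            have hTc' := Finset.card_le_card hT
            rw [hprodcard] at hUc' hTc'
            exact card_bad_real' D hDpos hm hN hval.1 hr1 q.1 q.2 hdis hUc hUc' hTc' hlow
        _ = J.card * ((N : ℝ) ^ (m * N) * ((m : ℝ) ^ (m * A.card) / rho N A.card ^ (91 * A.card))) := by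
            rw [Finset.sum_const, nsmul_eq_mul]
        _ ≤ 4 ^ (m * A.card) * ((N : ℝ) ^ (m * N) * ((m : ℝ) ^ (m * A.card) /
              rho N A.card ^ (91 * A.card))) := by
            apply mul_le_mul_of_nonneg_right hsub; positivity
        _ = (N : ℝ) ^ (m * N) * w A.card := by rw [hw]; ring
    · have hJe : J = ∅ := by
        rw [Finset.eq_empty_iff_forall_notMem]
        intro q hq
        rw [hJ, mem_filter] at hq
        obtain ⟨_, hA, _, hUc, hlow⟩ := hq
        apply hval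
        have hApos := hA.card_pos
        refine ⟨hApos, ?_⟩
        have hUpos : 0 < q.1.card := by omega
        obtain ⟨u, hu⟩ := Finset.card_pos.mp hUpos
        have h2 := hlow u hu
        have hsr : (0 : ℝ) < A.card := by exact_mod_cast hApos
        have hNs : (N : ℝ) = A.card * rho N A.card ^ 84 := by
          rw [rho_pow]; field_simp
        have h4 : (A.card : ℝ) * (D u.1 : ℝ) ^ 14 ≤ A.card * rho N A.card ^ 84 := by
          rw [← hNs]; exact_mod_cast h2
        have h5 : (D u.1 : ℝ) ^ 14 ≤ (rho N A.card ^ 6) ^ 14 := by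
          rw [← pow_mul]
          exact le_of_mul_le_mul_left h4 hsr
        have h6 : (D u.1 : ℝ) ≤ rho N A.card ^ 6 :=
          (pow_le_pow_iff_left₀ (by positivity) (pow_nonneg (rho_nonneg _ _) _) (by norm_num)).mp h5
        exact le_trans (by exact_mod_cast hD u.1) h6
      have hw : w A.card = 0 := by simp only [w, if_neg hval]
      rw [hJe, hw]
      simp
  have hsum : (N : ℝ) ^ (m * N) ≤ ∑ A : Finset (Fin N), (N : ℝ) ^ (m * N) * w A.card := by
    rw [← htot]
    have hcard' := (Nat.cast_le (α := ℝ)).mpr hcard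
    rw [Nat.cast_sum] at hcard'
    exact hcard'.trans ((Finset.sum_le_sum (fun A _ => hone A)).trans (le_of_eq (by rw [htot])))
  rw [← Finset.mul_sum] at hsum
  have hNpos : (0 : ℝ) < (N : ℝ) ^ (m * N) := by positivity
  have hge1 : (1 : ℝ) ≤ ∑ A : Finset (Fin N), w A.card := by
    by_contra hlt
    push Not at hlt
    have := mul_lt_mul_of_pos_left hlt hNpos
    linarith
  have hre : ∑ A : Finset (Fin N), w A.card = ∑ s ∈ range (N + 1), (N.choose s) • w s := by
    have := Finset.sum_powerset_apply_card (x := (univ : Finset (Fin N))) w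
    rw [Finset.powerset_univ, Finset.card_univ, Fintype.card_fin] at this
    exact this
  rw [hre, Finset.sum_range_succ'] at hge1
  have hw0 : w 0 = 0 := by simp [w]
  rw [hw0, smul_zero, add_zero] at hge1
  have hle : ∑ s ∈ range N, (N.choose (s + 1)) • w (s + 1) ≤ ∑ s ∈ range N, (1 / 4 : ℝ) ^ (s + 1) := by
    apply Finset.sum_le_sum
    intro s _
    rw [nsmul_eq_mul]
    by_cases hval : 0 < s + 1 ∧ (Q : ℝ) ≤ rho N (s + 1) ^ 6
    · simp only [w, if_pos hval]
      refine term_le' hval.1 (hone_of _ hval.2) (le_trans ?_ hval.2)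
      exact_mod_cast hQ
    · simp only [w, if_neg hval]
      rw [mul_zero]
      positivity
  have := geom_lt' N
  linarith

end Pool.Agent.U343.QR
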